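import Mathlib
import Pool.Agent.Lib.CookLevin.Defs
import Pool.Agent.Lib.MP_5b98da_lc.Defs
import Pool.Agent.Lib.MP_5b98da_lc.Word

/-!
STARS EQUITABLE 2-CHOOSABILITY is NP-hard.
-/

namespace Pool.Agent.Results.MP_5b98da_lc.ChoosabilityNPHard

open Pool.Agent.Lib.MP_5b98da_lc

/-- STARS EQUITABLE 2-CHOOSABILITY is NP-hard, whether the natural numbers start at 0 or at 1. -/
theorem result : ∀ b ≤ 1, Pool.Agent.CookLevin.NPHard (starsEquitable2Choosability b) := npHard

end Pool.Agent.Results.MP_5b98da_lc.ChoosabilityNPHard
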